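import Mathlib

set_option autoImplicit false

/-! `Tor` dimension counts for short exact sequences whose first map factors through
multiplication by an element killing the second module. -/

namespace Pool.Agent.Q35.SB

open CategoryTheory CategoryTheory.Limits MonoidalCategory

universe u

variable {R : Type u} [CommRing R]

/-- The complex `X ⊗ P`. -/
noncomputable abbrev FF (P : ChainComplex (ModuleCat.{u} R) ℕ) (X : ModuleCat.{u} R) :
    ChainComplex (ModuleCat.{u} R) ℕ :=
  (((tensoringLeft (ModuleCat.{u} R)).obj X).mapHomologicalComplex _).obj P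

/-- The map `X ⊗ P ⟶ Y ⊗ P`. -/
noncomputable abbrev Fm (P : ChainComplex (ModuleCat.{u} R) ℕ) {X Y : ModuleCat.{u} R} (f : X ⟶ Y) :
    FF P X ⟶ FF P Y :=
  (NatTrans.mapHomologicalComplex ((tensoringLeft (ModuleCat.{u} R)).map f) _).app P

theorem Fm_comp (P : ChainComplex (ModuleCat.{u} R) ℕ) {X Y Z : ModuleCat.{u} R} (f : X ⟶ Y)
    (g : Y ⟶ Z) : Fm P (f ≫ g) = Fm P f ≫ Fm P g := by
  ext i : 1
  simp [Fm]

theorem Fm_zero (P : ChainComplex (ModuleCat.{u} R) ℕ) (X Y : ModuleCat.{u} R) :
    Fm P (0 : X ⟶ Y) = 0 := by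
  ext i : 1
  simp [Fm]
  rfl

/-- The short complex of complexes. -/
noncomputable def SS (P : ChainComplex (ModuleCat.{u} R) ℕ) (S : ShortComplex (ModuleCat.{u} R)) :
    ShortComplex (ChainComplex (ModuleCat.{u} R) ℕ) :=
  ShortComplex.mk (Fm P S.f) (Fm P S.g) (by rw [← Fm_comp, S.zero, Fm_zero])

theorem SS_shortExact (P : ChainComplex (ModuleCat.{u} R) ℕ) (hP : ∀ i, Module.Flat R (P.X i))
    (S : ShortComplex (ModuleCat.{u} R)) (hS : S.ShortExact) : (SS P S).ShortExact := by
  apply HomologicalComplex.shortExact_of_degreewise_shortExact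
  intro i
  have := hP i
  have h1 : Function.Injective (S.f.hom) := (ModuleCat.mono_iff_injective _).1 hS.mono_f
  have h2 : Function.Surjective (S.g.hom) := (ModuleCat.epi_iff_surjective _).1 hS.epi_g
  have h3 : Function.Exact S.f.hom S.g.hom :=
    (ShortComplex.ShortExact.moduleCat_exact_iff_function_exact _).1 hS.exact
  have e1 : Function.Injective (LinearMap.rTensor (P.X i) S.f.hom) :=
    Module.Flat.rTensor_preserves_injective_linearMap _ h1
  have e2 : Function.Surjective (LinearMap.rTensor (P.X i) S.g.hom) :=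
    LinearMap.rTensor_surjective _ h2
  have e3 : Function.Exact (LinearMap.rTensor (P.X i) S.f.hom)
      (LinearMap.rTensor (P.X i) S.g.hom) := rTensor_exact _ h3 h2
  refine ShortComplex.ShortExact.mk' ?_ ?_ ?_
  · rw [ShortComplex.ShortExact.moduleCat_exact_iff_function_exact]
    exact e3
  · rw [ModuleCat.mono_iff_injective]
    exact e1
  · rw [ModuleCat.epi_iff_surjective]
    exact e2

/-- Multiplication by `x`. -/
noncomputable def mulX (x : R) (X : ModuleCat.{u} R) : X ⟶ X :=
  ModuleCat.ofHom (LinearMap.lsmul R X x)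

/-- Multiplication by `x` on a complex. -/
noncomputable def mulC (x : R) (P : ChainComplex (ModuleCat.{u} R) ℕ) : P ⟶ P where
  f i := mulX x (P.X i)
  comm' i j _ := by
    apply ModuleCat.hom_ext
    apply LinearMap.ext
    intro a
    change (P.d i j).hom (x • a) = x • (P.d i j).hom a
    rw [map_smul]

theorem Fm_mulX (P : ChainComplex (ModuleCat.{u} R) ℕ) (x : R) (X : ModuleCat.{u} R) :
    Fm P (mulX x X) = (((tensoringLeft (ModuleCat.{u} R)).obj X).mapHomologicalComplex _).map
      (mulC x P) := by
  ext i : 1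
  apply ModuleCat.hom_ext
  change LinearMap.rTensor (P.X i) (LinearMap.lsmul R X x) =
    LinearMap.lTensor X (LinearMap.lsmul R (P.X i) x)
  apply TensorProduct.ext'
  intro a b
  simp [TensorProduct.smul_tmul]

theorem mulC_homotopy {K : ModuleCat.{u} R} (Q : ProjectiveResolution K) (x : R)
    (hx : mulX x K = 0) : Nonempty (Homotopy (mulC x Q.complex) 0) := by
  refine ⟨ProjectiveResolution.liftHomotopy (0 : K ⟶ K) (P := Q) (Q := Q) _ _ ?_ ?_⟩
  · rw [Functor.map_zero, comp_zero]
    apply HomologicalComplex.hom_ext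
    intro i
    rcases i with _ | i
    · apply ModuleCat.hom_ext
      apply LinearMap.ext
      intro a
      change (Q.π.f 0).hom (x • a) = 0
      rw [map_smul]
      have h := congrArg (fun g : K ⟶ K => g.hom ((Q.π.f 0).hom a)) hx
      exact h
    · apply IsZero.eq_of_tgt
      exact HomologicalComplex.isZero_single_obj_X _ _ _ _ (by simp)
  · rw [Functor.map_zero, comp_zero, zero_comp]

theorem homologyMap_Fm_mulX {K : ModuleCat.{u} R} (Q : ProjectiveResolution K) (x : R)
    (hx : mulX x K = 0) (X : ModuleCat.{u} R) (j : ℕ) :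
    HomologicalComplex.homologyMap (Fm Q.complex (mulX x X)) j = 0 := by
  obtain ⟨h⟩ := mulC_homotopy Q x hx
  rw [Fm_mulX]
  have h2 := Functor.mapHomotopy ((tensoringLeft (ModuleCat.{u} R)).obj X) h
  rw [h2.homologyMap_eq j, Functor.map_zero]
  exact HomologicalComplex.homologyMap_zero _ _ _

/-- factorisation implies vanishing on homology -/
theorem homologyMap_Fm_factor {K : ModuleCat.{u} R} (Q : ProjectiveResolution K) (x : R)
    (hx : mulX x K = 0) {X Y : ModuleCat.{u} R} (f u : X ⟶ Y) (hf : f = mulX x X ≫ u) (j : ℕ) :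
    HomologicalComplex.homologyMap (Fm Q.complex f) j = 0 := by
  rw [hf, Fm_comp, HomologicalComplex.homologyMap_comp, homologyMap_Fm_mulX Q x hx, zero_comp]

section rank

variable (k : Type u) [Field k] [Algebra k R]

/-- The dimension over `k` of an `R`-module. -/
noncomputable def dk (T : ModuleCat.{u} R) : Cardinal.{u} :=
  Module.rank k ((ModuleCat.restrictScalars (algebraMap k R)).obj T)

theorem dk_iso {S T : ModuleCat.{u} R} (e : S ≅ T) : dk k S = dk k T :=
  LinearEquiv.rank_eq ((ModuleCat.restrictScalars (algebraMap k R)).mapIso e).toLinearEquiv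

theorem dk_exact {A B C : ModuleCat.{u} R} (f : A ⟶ B) (g : B ⟶ C)
    (hf : Function.Injective f.hom) (hg : Function.Surjective g.hom)
    (hfg : Function.Exact f.hom g.hom) : dk k B = dk k A + dk k C := by
  unfold dk
  set f' := ((ModuleCat.restrictScalars (algebraMap k R)).map f).hom with hf'
  set g' := ((ModuleCat.restrictScalars (algebraMap k R)).map g).hom with hg'
  have h1 : Function.Injective f' := hf
  have h2 : Function.Surjective g' := hg
  have h3 : Function.Exact f' g' := hfg
  have h4 := LinearMap.rank_range_add_rank_ker g'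
  rw [LinearMap.range_eq_top.2 h2, rank_top, (LinearMap.exact_iff.1 h3),
    (LinearEquiv.ofInjective f' h1).rank_eq.symm] at h4
  rw [← h4, add_comm]

/-- `dim_k Tor_j(X, K)`. -/
noncomputable def dT (K : ModuleCat.{u} R) (j : ℕ) (X : ModuleCat.{u} R) : Cardinal.{u} :=
  dk k (((Tor (ModuleCat.{u} R) j).obj X).obj K)

theorem dT_eq {K : ModuleCat.{u} R} (Q : ProjectiveResolution K) (j : ℕ) (X : ModuleCat.{u} R) :
    dT k K j X = dk k ((FF Q.complex X).homology j) := by
  have e := Q.isoLeftDerivedObj ((tensoringLeft (ModuleCat.{u} R)).obj X) j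
  exact dk_iso k e

/-- The dimension count. -/
theorem dT_add (K : ModuleCat.{u} R) (S : ShortComplex (ModuleCat.{u} R)) (hS : S.ShortExact)
    (x : R) (hx : mulX x K = 0) (u : S.X₁ ⟶ S.X₂) (hu : S.f = mulX x S.X₁ ≫ u) (j : ℕ) :
    dT k K (j + 1) S.X₃ = dT k K (j + 1) S.X₂ + dT k K j S.X₁ := by
  let Q := projectiveResolution K
  rw [dT_eq k Q, dT_eq k Q, dT_eq k Q]
  have hP : ∀ i, Module.Flat R (Q.complex.X i) := fun i => by
    have : Projective (Q.complex.X i) := Q.projective i
    have : Module.Projective R (Q.complex.X i) :=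
      (IsProjective.iff_projective (R := R) (Q.complex.X i)).2 this
    infer_instance
  have H := SS_shortExact Q.complex hP S hS
  have hrel : (ComplexShape.down ℕ).Rel (j + 1) j := by simp
  have z1 : HomologicalComplex.homologyMap (SS Q.complex S).f (j + 1) = 0 :=
    homologyMap_Fm_factor Q x hx S.f u hu (j + 1)
  have z2 : HomologicalComplex.homologyMap (SS Q.complex S).f j = 0 :=
    homologyMap_Fm_factor Q x hx S.f u hu j
  have x1 := H.homology_exact₁ (j + 1) j hrel
  have x2 := H.homology_exact₂ (j + 1)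
  have x3 := H.homology_exact₃ (j + 1) j hrel
  have m1 : Mono (HomologicalComplex.homologyMap (SS Q.complex S).g (j + 1)) :=
    x2.mono_g z1
  have m2 : Epi (H.δ (j + 1) j hrel) := x1.epi_f z2
  exact dk_exact k (HomologicalComplex.homologyMap (SS Q.complex S).g (j + 1))
    (H.δ (j + 1) j hrel) ((ModuleCat.mono_iff_injective _).1 m1)
    ((ModuleCat.epi_iff_surjective _).1 m2)
    ((ShortComplex.ShortExact.moduleCat_exact_iff_function_exact _).1 x3)

end rank

end Pool.Agent.Q35.SB
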