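import Mathlib
import Pool.Agent.Q35.SB.Tor

set_option autoImplicit false

/-! Module-level forms. -/

namespace Pool.Agent.Q35.SB

open CategoryTheory CategoryTheory.Limits MonoidalCategory

universe u

variable (R : Type u) [CommRing R] (k : Type u) [Field k] [Algebra k R]

/-- `dim_k Tor_j(X, K)` for modules. -/
noncomputable def tdim (K : Type u) [AddCommGroup K] [Module R K] (j : ℕ) (X : Type u)
    [AddCommGroup X] [Module R X] : Cardinal.{u} :=
  dT k (ModuleCat.of R K) j (ModuleCat.of R X)

variable (K : Type u) [AddCommGroup K] [Module R K]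

theorem tdim_congr (j : ℕ) {X Y : Type u} [AddCommGroup X] [Module R X] [AddCommGroup Y]
    [Module R Y] (e : X ≃ₗ[R] Y) : tdim R k K j X = tdim R k K j Y := by
  unfold tdim dT
  exact dk_iso k (((Tor (ModuleCat.{u} R) j).mapIso e.toModuleIso).app (ModuleCat.of R K))

theorem tdim_add {X' X X'' : Type u} [AddCommGroup X'] [Module R X'] [AddCommGroup X] [Module R X]
    [AddCommGroup X''] [Module R X''] (f : X' →ₗ[R] X) (g : X →ₗ[R] X'')
    (hf : Function.Injective f) (hg : Function.Surjective g) (hfg : Function.Exact f g)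
    (x : R) (hx : ∀ a : K, x • a = 0) (v : X' →ₗ[R] X) (hv : ∀ a, f a = v (x • a)) (j : ℕ) :
    tdim R k K (j + 1) X'' = tdim R k K (j + 1) X + tdim R k K j X' := by
  have hS : (ShortComplex.mk (ModuleCat.ofHom f) (ModuleCat.ofHom g) (by
      rw [← ModuleCat.ofHom_comp, hfg.linearMap_comp_eq_zero]; rfl)).ShortExact := by
    refine ShortComplex.ShortExact.mk' ?_ ?_ ?_
    · rw [ShortComplex.ShortExact.moduleCat_exact_iff_function_exact]
      exact hfg
    · rw [ModuleCat.mono_iff_injective]
      exact hf
    · rw [ModuleCat.epi_iff_surjective]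
      exact hg
  refine dT_add k (ModuleCat.of R K) _ hS x ?_ (ModuleCat.ofHom v) ?_ j
  · apply ModuleCat.hom_ext
    apply LinearMap.ext
    intro a
    exact hx a
  · apply ModuleCat.hom_ext
    apply LinearMap.ext
    intro a
    exact hv a

theorem tdim_flat (X : Type u) [AddCommGroup X] [Module R X] [Module.Flat R X] (j : ℕ) :
    tdim R k K (j + 1) X = 0 := by
  let Q := projectiveResolution (ModuleCat.of R K)
  unfold tdim
  rw [dT_eq k Q]
  have h : (FF Q.complex (ModuleCat.of R X)).ExactAt (j + 1) := by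
    rw [HomologicalComplex.exactAt_iff' _ (j + 1 + 1) (j + 1) j (by simp) (by simp),
      ShortComplex.ShortExact.moduleCat_exact_iff_function_exact]
    have h := Q.exact_succ j
    rw [ShortComplex.ShortExact.moduleCat_exact_iff_function_exact] at h
    exact Module.Flat.lTensor_exact X h
  have h2 := (HomologicalComplex.exactAt_iff_isZero_homology _ _).1 h
  have h3 : dk k ((FF Q.complex (ModuleCat.of R X)).homology (j + 1)) =
      dk k (ModuleCat.of R PUnit) :=
    dk_iso k (h2.iso (by
      apply ModuleCat.isZero_of_subsingleton))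
  rw [h3]
  unfold dk
  have : Subsingleton ↑((ModuleCat.restrictScalars (algebraMap k R)).obj
      (ModuleCat.of R PUnit.{u + 1})) := inferInstanceAs (Subsingleton PUnit.{u + 1})
  exact rank_subsingleton' _ _

theorem tdim_zero (X : Type u) [AddCommGroup X] [Module R X] :
    tdim R k K 0 X = dk k (ModuleCat.of R (TensorProduct R X K)) := by
  unfold tdim dT
  exact dk_iso k (((tensoringLeft (ModuleCat.{u} R)).obj
    (ModuleCat.of R X)).leftDerivedZeroIsoSelf.app (ModuleCat.of R K))

/-- cyclic module: `dim Tor_0 = dim K` -/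
theorem tdim_zero_quot (I : Ideal R) (hI : ∀ a ∈ I, ∀ b : K, a • b = 0) :
    tdim R k K 0 (R ⧸ I) = dk k (ModuleCat.of R K) := by
  rw [tdim_zero]
  apply dk_iso
  have e1 : I • (⊤ : Submodule R K) = ⊥ := ?_
  · exact LinearEquiv.toModuleIso ((TensorProduct.quotTensorEquivQuotSMul K I).trans
      (Submodule.quotEquivOfEqBot _ e1))
  rw [eq_bot_iff, Submodule.smul_le]
  intro r hr n _
  rw [hI r hr n]
  exact Submodule.zero_mem _

end Pool.Agent.Q35.SB
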