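import Mathlib
import Pool.Agent.Q35.SB.Tor2

set_option autoImplicit false

/-! Monomial ideals and the basic step. -/

namespace Pool.Agent.Q35.SB

open MvPolynomial

universe u

variable {σ : Type} (k : Type u) [Field k]

/-- The monomial ideal with exponents `G`. -/
noncomputable def MI (G : Set (σ →₀ ℕ)) : Ideal (MvPolynomial σ k) :=
  Ideal.span ((fun s => monomial s (1 : k)) '' G)

variable {k}

theorem mem_MI {G : Set (σ →₀ ℕ)} {f : MvPolynomial σ k} :
    f ∈ MI k G ↔ ∀ s ∈ f.support, ∃ a ∈ G, a ≤ s :=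
  mem_ideal_span_monomial_image

theorem MI_mono {G H : Set (σ →₀ ℕ)} (h : ∀ g ∈ G, ∃ a ∈ H, a ≤ g) : MI k G ≤ MI k H := by
  intro f hf
  rw [mem_MI] at hf ⊢
  intro s hs
  obtain ⟨a, ha, has⟩ := hf s hs
  obtain ⟨b, hb, hba⟩ := h a ha
  exact ⟨b, hb, hba.trans has⟩

theorem coeff_mul_mono (f : MvPolynomial σ k) (g s : σ →₀ ℕ) :
    coeff (s + g) (monomial g 1 * f) = coeff s f := by
  rw [add_comm, coeff_monomial_mul, one_mul]

variable (k)

/-- multiplication by the monomial `g` as a map of quotients. -/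
noncomputable def mulMap (G H : Set (σ →₀ ℕ)) (g : σ →₀ ℕ)
    (h : ∀ t ∈ H, ∃ a ∈ G, a ≤ t + g) :
    (MvPolynomial σ k ⧸ MI k H) →ₗ[MvPolynomial σ k] (MvPolynomial σ k ⧸ MI k G) :=
  Submodule.mapQ (MI k H) (MI k G)
    (LinearMap.lsmul (MvPolynomial σ k) (MvPolynomial σ k) (monomial g 1)) (by
    intro f hf
    change monomial g 1 * f ∈ MI k G
    rw [mem_MI] at hf ⊢
    intro s hs
    rw [mem_support_iff] at hs
    rw [coeff_monomial_mul'] at hs
    by_cases hgs : g ≤ s
    · rw [if_pos hgs, one_mul] at hs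
      obtain ⟨t, ht, hts⟩ := hf (s - g) (mem_support_iff.2 hs)
      obtain ⟨a, ha, hat⟩ := h t ht
      refine ⟨a, ha, hat.trans ?_⟩
      calc t + g ≤ (s - g) + g := by gcongr
        _ = s := tsub_add_cancel_of_le hgs
    · rw [if_neg hgs] at hs
      exact absurd rfl hs)

theorem mulMap_mk (G H : Set (σ →₀ ℕ)) (g : σ →₀ ℕ)
    (h : ∀ t ∈ H, ∃ a ∈ G, a ≤ t + g) (f : MvPolynomial σ k) :
    mulMap k G H g h (Ideal.Quotient.mk (MI k H) f) =
      Ideal.Quotient.mk (MI k G) (monomial g 1 * f) := rfl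

/-- The exponents of the variables in `T`. -/
def VV (T : Set σ) : Set (σ →₀ ℕ) := (fun t => Finsupp.single t 1) '' T

/-- The basic step. -/
theorem step (K : Type u) [AddCommGroup K] [Module (MvPolynomial σ k) K]
    (hK : ∀ (v : σ) (b : K), (X v : MvPolynomial σ k) • b = 0)
    (G : Set (σ →₀ ℕ)) (g' : σ →₀ ℕ) (v : σ) (T : Set σ)
    (h1 : ∀ t ∈ T, ∃ a ∈ G, a ≤ Finsupp.single t 1 + g')
    (h2 : ∀ s : σ →₀ ℕ, (∀ t ∈ T, s t = 0) → ∀ a ∈ G, ¬ a ≤ s + (g' + Finsupp.single v 1))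
    (j : ℕ) :
    tdim (MvPolynomial σ k) k K (j + 1)
        (MvPolynomial σ k ⧸ MI k (insert (g' + Finsupp.single v 1) G)) =
      tdim (MvPolynomial σ k) k K (j + 1) (MvPolynomial σ k ⧸ MI k G) +
      tdim (MvPolynomial σ k) k K j (MvPolynomial σ k ⧸ MI k (VV T)) := by
  have h1' : ∀ t ∈ VV T, ∃ a ∈ G, a ≤ t + g' := by
    rintro _ ⟨t, ht, rfl⟩
    exact h1 t ht
  have h1'' : ∀ t ∈ VV T, ∃ a ∈ G, a ≤ t + (g' + Finsupp.single v 1) := by
    intro t ht
    obtain ⟨a, ha, hat⟩ := h1' t ht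
    exact ⟨a, ha, hat.trans (by rw [← add_assoc]; exact le_self_add)⟩
  have hle : MI k G ≤ MI k (insert (g' + Finsupp.single v 1) G) :=
    MI_mono (fun a ha => ⟨a, Set.mem_insert_of_mem _ ha, le_rfl⟩)
  refine tdim_add _ k K (mulMap k G (VV T) (g' + Finsupp.single v 1) h1'')
    (Submodule.factor hle) ?_ ?_ ?_ (X v) (hK v) (mulMap k G (VV T) g' h1') ?_ j
  · rw [injective_iff_map_eq_zero]
    intro q hq
    obtain ⟨f, rfl⟩ := Ideal.Quotient.mk_surjective q
    rw [mulMap_mk, Ideal.Quotient.eq_zero_iff_mem, mem_MI] at hq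
    rw [Ideal.Quotient.eq_zero_iff_mem, mem_MI]
    intro s hs
    by_contra hcon
    push Not at hcon
    obtain ⟨a, ha, has⟩ := hq (s + (g' + Finsupp.single v 1)) (by
      rw [mem_support_iff, coeff_mul_mono]
      exact mem_support_iff.1 hs)
    refine h2 s (fun t ht => ?_) a ha has
    by_contra h0
    refine hcon _ ⟨t, ht, rfl⟩ ?_
    rw [Finsupp.single_le_iff]
    omega
  · exact Submodule.factor_surjective hle
  · intro q
    obtain ⟨f, rfl⟩ := Ideal.Quotient.mk_surjective q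
    constructor
    · intro hq
      have hq' : f ∈ MI k (insert (g' + Finsupp.single v 1) G) := by
        have : Ideal.Quotient.mk (MI k (insert (g' + Finsupp.single v 1) G)) f = 0 := hq
        rwa [Ideal.Quotient.eq_zero_iff_mem] at this
      rw [mem_MI] at hq'
      refine ⟨Ideal.Quotient.mk _ (f.divMonomial (g' + Finsupp.single v 1)), ?_⟩
      rw [mulMap_mk, Ideal.Quotient.eq, ← neg_sub, neg_mem_iff, mem_MI]
      intro s hs
      have e1 : f - monomial (g' + Finsupp.single v 1) 1 * (f.divMonomial (g' + Finsupp.single v 1)) =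
          f.modMonomial (g' + Finsupp.single v 1) := by
        rw [sub_eq_iff_eq_add, add_comm]
        exact (divMonomial_add_modMonomial f _).symm
      rw [e1, mem_support_iff] at hs
      by_cases hgs : g' + Finsupp.single v 1 ≤ s
      · exact absurd (coeff_modMonomial_of_le f hgs) hs
      · rw [coeff_modMonomial_of_not_le f hgs] at hs
        obtain ⟨a, ha, has⟩ := hq' s (mem_support_iff.2 hs)
        rcases ha with rfl | ha
        · exact absurd has hgs
        · exact ⟨a, ha, has⟩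
    · rintro ⟨p, hp⟩
      obtain ⟨h, rfl⟩ := Ideal.Quotient.mk_surjective p
      rw [← hp, mulMap_mk]
      change Ideal.Quotient.mk (MI k (insert (g' + Finsupp.single v 1) G)) _ = 0
      rw [Ideal.Quotient.eq_zero_iff_mem]
      apply Ideal.mul_mem_right
      exact Ideal.subset_span ⟨_, Set.mem_insert _ _, rfl⟩
  · intro q
    obtain ⟨f, rfl⟩ := Ideal.Quotient.mk_surjective q
    change _ = mulMap k G (VV T) g' h1' (Ideal.Quotient.mk _ (X v * f))
    rw [mulMap_mk, mulMap_mk]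
    congr 1
    rw [← mul_assoc]
    congr 1
    rw [X, monomial_mul, one_mul]

end Pool.Agent.Q35.SB
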