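import Mathlib
import Pool.Agent.Q35.SB.Mono

set_option autoImplicit false
set_option linter.unusedSectionVars false
set_option linter.unusedSimpArgs false

/-! The linear quotient count. -/

namespace Pool.Agent.Q35.SB

open MvPolynomial

universe u

variable {σ : Type} [DecidableEq σ] (k : Type u) [Field k]

section

variable (K : Type u) [AddCommGroup K] [Module (MvPolynomial σ k) K]

/-- the dimension of `Tor` of the quotient by a monomial ideal -/
noncomputable def td (j : ℕ) (G : Set (σ →₀ ℕ)) : Cardinal.{u} :=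
  tdim (MvPolynomial σ k) k K j (MvPolynomial σ k ⧸ MI k G)

variable (hK : ∀ (v : σ) (b : K), (X v : MvPolynomial σ k) • b = 0)
  (hK1 : dk k (ModuleCat.of (MvPolynomial σ k) K) = 1)

include hK hK1

theorem ann_MI (G : Set (σ →₀ ℕ)) (hG : (0 : σ →₀ ℕ) ∉ G) :
    ∀ a ∈ MI k G, ∀ b : K, a • b = 0 := by
  have h : MI k G ≤ Module.annihilator (MvPolynomial σ k) K := by
    unfold MI
    rw [Ideal.span_le]
    rintro _ ⟨g, hg, rfl⟩
    have hg0 : g ≠ 0 := fun h => hG (h ▸ hg)
    obtain ⟨v, hv⟩ := Finsupp.ne_iff.1 hg0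
    have hd : (X v : MvPolynomial σ k) ∣ monomial g 1 := by
      rw [X_dvd_monomial]
      exact Or.inr hv
    obtain ⟨q, hq⟩ := hd
    change monomial g 1 ∈ _
    rw [hq]
    apply Ideal.mul_mem_right
    rw [Module.mem_annihilator]
    exact hK v
  intro a ha b
  exact Module.mem_annihilator.1 (h ha) b

theorem td_zero (G : Set (σ →₀ ℕ)) (hG : (0 : σ →₀ ℕ) ∉ G) : td k K 0 G = 1 := by
  unfold td
  rw [tdim_zero_quot _ k K _ (ann_MI k K hK hK1 G hG), hK1]

theorem td_empty (j : ℕ) : td k K (j + 1) (∅ : Set (σ →₀ ℕ)) = 0 := by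
  unfold td
  have h : MI k (∅ : Set (σ →₀ ℕ)) = ⊥ := by
    unfold MI
    rw [Set.image_empty, Ideal.span_empty]
  have e : (MvPolynomial σ k ⧸ MI k (∅ : Set (σ →₀ ℕ))) ≃ₗ[MvPolynomial σ k] MvPolynomial σ k :=
    Submodule.quotEquivOfEqBot _ h
  rw [tdim_congr _ k K (j + 1) e]
  exact tdim_flat _ k K _ j

theorem td_vars (T : Finset σ) (j : ℕ) : td k K j (VV (T : Set σ)) = (T.card.choose j : ℕ) := by
  induction T using Finset.induction_on generalizing j with
  | empty =>
    have h : VV ((∅ : Finset σ) : Set σ) = ∅ := by simp [VV]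
    rw [h]
    rcases j with _ | j
    · rw [td_zero k K hK hK1 _ (by simp)]
      simp
    · rw [td_empty k K hK hK1]
      simp
  | insert v T hv ih =>
    rcases j with _ | j
    · rw [td_zero k K hK hK1 _ ?_]
      · simp
      · rintro ⟨t, _, ht⟩
        have := congrArg (fun f => f t) ht
        simp at this
    · have hs : VV ((insert v T : Finset σ) : Set σ) =
          insert (0 + Finsupp.single v 1) (VV (T : Set σ)) := by
        simp [VV, Set.image_insert_eq]
      have h := step k K hK (VV (T : Set σ)) 0 v (T : Set σ)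
        (fun t ht => ⟨_, ⟨t, ht, rfl⟩, by simp⟩) (by
          rintro s hs _ ⟨t, ht, rfl⟩ hle
          have h1 := hle t
          have h2 : t ≠ v := fun h => hv (h ▸ (Finset.mem_coe.1 ht))
          simp [Finsupp.single_eq_of_ne h2, hs t ht] at h1) j
      rw [← hs] at h
      have h' : td k K (j + 1) (VV ((insert v T : Finset σ) : Set σ)) =
        td k K (j + 1) (VV (T : Set σ)) + td k K j (VV (T : Set σ)) := h
      rw [h', ih, ih, Finset.card_insert_of_notMem hv, Nat.choose_succ_succ]
      push_cast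
      ring

theorem td_step (G : Set (σ →₀ ℕ)) (g' : σ →₀ ℕ) (v : σ) (T : Finset σ)
    (h1 : ∀ t ∈ T, ∃ a ∈ G, a ≤ Finsupp.single t 1 + g')
    (h2 : ∀ s : σ →₀ ℕ, (∀ t ∈ T, s t = 0) → ∀ a ∈ G, ¬ a ≤ s + (g' + Finsupp.single v 1))
    (j : ℕ) :
    td k K (j + 1) (insert (g' + Finsupp.single v 1) G) =
      td k K (j + 1) G + (T.card.choose j : ℕ) := by
  rw [← td_vars k K hK hK1]
  exact step k K hK G g' v (T : Set σ) h1 h2 j

omit hK hK1 in
theorem td_congr {G H : Set (σ →₀ ℕ)} (h1 : ∀ g ∈ G, ∃ a ∈ H, a ≤ g)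
    (h2 : ∀ g ∈ H, ∃ a ∈ G, a ≤ g) (j : ℕ) : td k K j G = td k K j H := by
  unfold td
  have h : MI k G = MI k H := le_antisymm (MI_mono h1) (MI_mono h2)
  rw [h]

end

/-- generators -/
def GW (o : σ) (V W : Finset σ) : Set (σ →₀ ℕ) :=
  {s | s = Finsupp.single o 1 ∨ ∃ w ∈ W, ∃ v ∈ V, s = Finsupp.single w 1 + Finsupp.single v 1}

/-- generators -/
def GQ (o : σ) (V W : Finset σ) (z : σ) (Q : Finset σ) : Set (σ →₀ ℕ) :=
  {s | s ∈ GW o V W ∨ ∃ q ∈ Q, s = Finsupp.single z 1 + Finsupp.single q 1}

section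

variable (K : Type u) [AddCommGroup K] [Module (MvPolynomial σ k) K]
variable (hK : ∀ (v : σ) (b : K), (X v : MvPolynomial σ k) • b = 0)
  (hK1 : dk k (ModuleCat.of (MvPolynomial σ k) K) = 1)

include hK hK1

theorem inner (o : σ) (V W : Finset σ) (z : σ) (hW : W ⊆ V) (hz : z ∈ V) (hzW : z ∉ W)
    (ho : o ∉ V) (Q : Finset σ) (hQ : Q ⊆ V) (hQW : Disjoint Q W) (j : ℕ) :
    td k K (j + 1) (GQ o V W z (W ∪ Q)) + ((W.card + 1).choose (j + 1) : ℕ) =
      td k K (j + 1) (GW o V W) + ((W.card + Q.card + 1).choose (j + 1) : ℕ) := by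
  induction Q using Finset.induction_on with
  | empty =>
    rw [Finset.union_empty, Finset.card_empty, add_zero]
    congr 1
    apply td_congr
    · rintro g (hg | ⟨q, hq, rfl⟩)
      · exact ⟨g, hg, le_rfl⟩
      · refine ⟨_, Or.inr ⟨q, hq, z, hz, rfl⟩, ?_⟩
        rw [add_comm]
    · intro g hg
      exact ⟨g, Or.inl hg, le_rfl⟩
  | insert v Q hv ih =>
    rw [Finset.insert_subset_iff] at hQ
    rw [Finset.disjoint_insert_left] at hQW
    have ih' := ih hQ.2 hQW.2
    have hvWQ : v ∉ W ∪ Q := by
      rw [Finset.mem_union]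
      tauto
    have hoWQ : o ∉ W ∪ Q := by
      rw [Finset.mem_union]
      rintro (h | h)
      · exact ho (hW h)
      · exact ho (hQ.2 h)
    have hs : GQ o V W z (W ∪ insert v Q) =
        insert (Finsupp.single z 1 + Finsupp.single v 1) (GQ o V W z (W ∪ Q)) := by
      ext s
      rw [Finset.union_insert]
      constructor
      · rintro (hg | ⟨q, hq, rfl⟩)
        · exact Or.inr (Or.inl hg)
        · rw [Finset.mem_insert] at hq
          rcases hq with rfl | hq
          · exact Or.inl rfl
          · exact Or.inr (Or.inr ⟨q, hq, rfl⟩)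
      · rintro (rfl | (hg | ⟨q, hq, rfl⟩))
        · exact Or.inr ⟨v, Finset.mem_insert_self _ _, rfl⟩
        · exact Or.inl hg
        · exact Or.inr ⟨q, Finset.mem_insert_of_mem hq, rfl⟩
    have hzo : z ≠ o := fun h => ho (h ▸ hz)
    have hvo : v ≠ o := fun h => ho (h ▸ hQ.1)
    have hst := td_step k K hK hK1 (GQ o V W z (W ∪ Q)) (Finsupp.single z 1) v
      (insert o (W ∪ Q)) (by
        intro t ht
        rw [Finset.mem_insert] at ht
        rcases ht with rfl | ht
        · exact ⟨_, Or.inl (Or.inl rfl), le_self_add⟩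
        · exact ⟨_, Or.inr ⟨t, ht, rfl⟩, by rw [add_comm]⟩) (by
        intro s hs a ha hle
        rcases ha with (rfl | ⟨w, hw, u, hu, rfl⟩) | ⟨q, hq, rfl⟩
        · have h1 := hle o
          have h2 := hs o (Finset.mem_insert_self _ _)
          simp [Finsupp.single_eq_of_ne hzo.symm, Finsupp.single_eq_of_ne hvo.symm, h2] at h1
        · have h1 := hle w
          have h2 := hs w (Finset.mem_insert_of_mem (Finset.mem_union_left _ hw))
          have h3 : w ≠ z := fun h => hzW (h ▸ hw)
          have h4 : w ≠ v := fun h => hvWQ (Finset.mem_union_left _ (h ▸ hw))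
          simp [Finsupp.single_eq_of_ne h3, Finsupp.single_eq_of_ne h4, h2] at h1
        · have h1 := hle q
          have h2 := hs q (Finset.mem_insert_of_mem hq)
          have h4 : q ≠ v := fun h => hvWQ (h ▸ hq)
          by_cases h3 : q = z
          · subst h3
            simp [Finsupp.single_eq_of_ne h4, h2] at h1
          · simp [Finsupp.single_eq_of_ne h3, Finsupp.single_eq_of_ne h4, h2] at h1) j
    rw [hs, hst, Finset.card_insert_of_notMem hoWQ, Finset.card_union_of_disjoint hQW.2.symm,
      Finset.card_insert_of_notMem hv]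
    have e1 : (W.card + (Q.card + 1) + 1).choose (j + 1) =
        (W.card + Q.card + 1).choose j + (W.card + Q.card + 1).choose (j + 1) := by
      rw [← Nat.choose_succ_succ]
      congr 1
    rw [e1, add_right_comm, ih']
    push_cast
    ring

theorem outer (o : σ) (V : Finset σ) (ho : o ∉ V) (W : Finset σ) (hW : W ⊆ V) (j : ℕ) :
    td k K (j + 1) (GW o V W) + ((W.card + 1).choose (j + 2) : ℕ) =
      (Nat.choose 1 (j + 1) + W.card * (V.card + 1).choose (j + 1) : ℕ) := by
  induction W using Finset.induction_on with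
  | empty =>
    have h : GW o V ∅ = VV (({o} : Finset σ) : Set σ) := by
      ext s
      simp [GW, VV, eq_comm]
    rw [h, td_vars k K hK hK1]
    have h2 : Nat.choose 1 (j + 2) = 0 := Nat.choose_eq_zero_of_lt (by omega)
    simp [h2]
  | insert z W hz ih =>
    rw [Finset.insert_subset_iff] at hW
    have ih' := ih hW.2
    have hin := inner k K hK hK1 o V W z hW.2 hW.1 hz ho (V \ W) Finset.sdiff_subset
      Finset.sdiff_disjoint j
    rw [Finset.union_sdiff_of_subset hW.2] at hin
    have hs : GQ o V W z V = GW o V (insert z W) := by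
      ext s
      constructor
      · rintro ((rfl | ⟨w, hw, u, hu, rfl⟩) | ⟨q, hq, rfl⟩)
        · exact Or.inl rfl
        · exact Or.inr ⟨w, Finset.mem_insert_of_mem hw, u, hu, rfl⟩
        · exact Or.inr ⟨z, Finset.mem_insert_self _ _, q, hq, rfl⟩
      · rintro (rfl | ⟨w, hw, u, hu, rfl⟩)
        · exact Or.inl (Or.inl rfl)
        · rw [Finset.mem_insert] at hw
          rcases hw with rfl | hw
          · exact Or.inr ⟨u, hu, rfl⟩
          · exact Or.inl (Or.inr ⟨w, hw, u, hu, rfl⟩)
    have hcard : W.card + (V \ W).card + 1 = V.card + 1 := by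
      rw [add_comm W.card, Finset.card_sdiff_add_card_eq_card hW.2]
    rw [hs, hcard] at hin
    rw [Finset.card_insert_of_notMem hz]
    have e1 : (W.card + 1 + 1).choose (j + 2) =
        (W.card + 1).choose (j + 1) + (W.card + 1).choose (j + 2) := by
      rw [← Nat.choose_succ_succ]
    rw [e1, Nat.cast_add, ← add_assoc, hin, add_right_comm, ih']
    push_cast
    ring

/-- all generators -/
def GF (o : σ) (V : Finset σ) (x y : σ) : Set (σ →₀ ℕ) :=
  insert (Finsupp.single x 1 + Finsupp.single x 1 + Finsupp.single x 1)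
    (insert (Finsupp.single x 1 + Finsupp.single y 1 + Finsupp.single x 1)
      (insert (Finsupp.single y 1 + Finsupp.single y 1)
        (GW o V ((V.erase x).erase y))))

theorem final (o : σ) (V : Finset σ) (ho : o ∉ V) (x y : σ) (hx : x ∈ V) (hy : y ∈ V)
    (hxy : x ≠ y) (M : ℕ) (hM : V.card = M + 2) (j : ℕ) :
    td k K (j + 1) (GF o V x y) + ((M + 1).choose (j + 2) : ℕ) =
      (Nat.choose 1 (j + 1) + M * (M + 3).choose (j + 1) + (M + 1).choose j +
        2 * (M + 2).choose j : ℕ) := by
  set Z := (V.erase x).erase y with hZ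
  have hZc : Z.card = M := by
    rw [hZ, Finset.card_erase_of_mem (Finset.mem_erase.2 ⟨hxy.symm, hy⟩),
      Finset.card_erase_of_mem hx, hM]
    omega
  have hZV : Z ⊆ V := (Finset.erase_subset _ _).trans (Finset.erase_subset _ _)
  have hxZ : x ∉ Z := by simp [hZ]
  have hyZ : y ∉ Z := by simp [hZ]
  have hoZ : o ∉ Z := fun h => ho (hZV h)
  have hox : o ≠ x := fun h => ho (h ▸ hx)
  have hoy : o ≠ y := fun h => ho (h ▸ hy)
  have hyoZ : y ∉ insert o Z := by
    rw [Finset.mem_insert]
    rintro (h | h)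
    · exact hoy h.symm
    · exact hyZ h
  have h0 := outer k K hK hK1 o V ho Z hZV j
  have h1 := td_step k K hK hK1 (GW o V Z) (Finsupp.single y 1) y (insert o Z) (by
      intro t ht
      rw [Finset.mem_insert] at ht
      rcases ht with rfl | ht
      · exact ⟨_, Or.inl rfl, le_self_add⟩
      · exact ⟨_, Or.inr ⟨t, ht, y, hy, rfl⟩, le_rfl⟩) (by
      intro s hs a ha hle
      rcases ha with rfl | ⟨w, hw, u, hu, rfl⟩
      · have h1 := hle o
        have h2 := hs o (Finset.mem_insert_self _ _)
        simp [Finsupp.single_eq_of_ne hoy, h2] at h1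
      · have h1 := hle w
        have h2 := hs w (Finset.mem_insert_of_mem hw)
        have h3 : w ≠ y := fun h => hyZ (h ▸ hw)
        simp [Finsupp.single_eq_of_ne h3, h2] at h1) j
  have h2 := td_step k K hK hK1 (insert (Finsupp.single y 1 + Finsupp.single y 1) (GW o V Z))
    (Finsupp.single x 1 + Finsupp.single y 1) x (insert y (insert o Z)) (by
      intro t ht
      rw [Finset.mem_insert, Finset.mem_insert] at ht
      rcases ht with rfl | rfl | ht
      · refine ⟨_, Or.inl rfl, ?_⟩
        rw [add_comm (Finsupp.single x 1), ← add_assoc]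
        exact le_self_add
      · exact ⟨_, Or.inr (Or.inl rfl), le_self_add⟩
      · refine ⟨_, Or.inr (Or.inr ⟨t, ht, x, hx, rfl⟩), ?_⟩
        rw [← add_assoc]
        exact le_self_add) (by
      intro s hs a ha hle
      rcases ha with rfl | rfl | ⟨w, hw, u, hu, rfl⟩
      · have h1 := hle y
        have h2 := hs y (Finset.mem_insert_self _ _)
        simp [Finsupp.single_eq_of_ne hxy.symm, h2] at h1
      · have h1 := hle o
        have h2 := hs o (Finset.mem_insert_of_mem (Finset.mem_insert_self _ _))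
        simp [Finsupp.single_eq_of_ne hoy, Finsupp.single_eq_of_ne hox, h2] at h1
      · have h1 := hle w
        have h2 := hs w (Finset.mem_insert_of_mem (Finset.mem_insert_of_mem hw))
        have h3 : w ≠ y := fun h => hyZ (h ▸ hw)
        have h4 : w ≠ x := fun h => hxZ (h ▸ hw)
        simp [Finsupp.single_eq_of_ne h3, Finsupp.single_eq_of_ne h4, h2] at h1) j
  have h3 := td_step k K hK hK1 (insert (Finsupp.single x 1 + Finsupp.single y 1 +
      Finsupp.single x 1) (insert (Finsupp.single y 1 + Finsupp.single y 1) (GW o V Z)))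
    (Finsupp.single x 1 + Finsupp.single x 1) x (insert y (insert o Z)) (by
      intro t ht
      rw [Finset.mem_insert, Finset.mem_insert] at ht
      rcases ht with rfl | rfl | ht
      · refine ⟨_, Or.inl rfl, ?_⟩
        rw [add_comm (Finsupp.single x 1) (Finsupp.single t 1), add_assoc]
      · exact ⟨_, Or.inr (Or.inr (Or.inl rfl)), le_self_add⟩
      · refine ⟨_, Or.inr (Or.inr (Or.inr ⟨t, ht, x, hx, rfl⟩)), ?_⟩
        rw [← add_assoc]
        exact le_self_add) (by
      intro s hs a ha hle
      rcases ha with rfl | rfl | rfl | ⟨w, hw, u, hu, rfl⟩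
      · have h1 := hle y
        have h2 := hs y (Finset.mem_insert_self _ _)
        simp [Finsupp.single_eq_of_ne hxy.symm, h2] at h1
      · have h1 := hle y
        have h2 := hs y (Finset.mem_insert_self _ _)
        simp [Finsupp.single_eq_of_ne hxy.symm, h2] at h1
      · have h1 := hle o
        have h2 := hs o (Finset.mem_insert_of_mem (Finset.mem_insert_self _ _))
        simp [Finsupp.single_eq_of_ne hoy, Finsupp.single_eq_of_ne hox, h2] at h1
      · have h1 := hle w
        have h2 := hs w (Finset.mem_insert_of_mem (Finset.mem_insert_of_mem hw))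
        have h3 : w ≠ y := fun h => hyZ (h ▸ hw)
        have h4 : w ≠ x := fun h => hxZ (h ▸ hw)
        simp [Finsupp.single_eq_of_ne h3, Finsupp.single_eq_of_ne h4, h2] at h1) j
  rw [Finset.card_insert_of_notMem hoZ, hZc] at h1
  rw [Finset.card_insert_of_notMem hyoZ, Finset.card_insert_of_notMem hoZ, hZc] at h2 h3
  rw [hZc, hM] at h0
  unfold GF
  rw [← hZ, h3, h2, h1]
  have e : td k K (j + 1) (GW o V Z) + ((M + 1).choose j : ℕ) + ((M + 1 + 1).choose j : ℕ) +
      ((M + 1 + 1).choose j : ℕ) + ((M + 1).choose (j + 2) : ℕ) =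
      (td k K (j + 1) (GW o V Z) + ((M + 1).choose (j + 2) : ℕ)) + ((M + 1).choose j : ℕ) +
      ((M + 1 + 1).choose j : ℕ) + ((M + 1 + 1).choose j : ℕ) := by ring
  rw [e, h0]
  push_cast
  ring

end

end Pool.Agent.Q35.SB
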