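import Mathlib

set_option autoImplicit false

/-! Betti numbers of the semigroup rings `k[S_{m,n}]`. -/

namespace Pool.Agent.Q35.SB

open CategoryTheory

universe u

/-- The index set `J = {0, …, e-1} \ {m, n}`. -/
def gens (e m n : ℕ) : Finset ℕ := (Finset.range e).filter (fun i => i ≠ m ∧ i ≠ n)

/-- The polynomial ring `R = k[X_i : i ∈ J]`. -/
abbrev PR (k : Type u) [Field k] (e m n : ℕ) : Type u := MvPolynomial (gens e m n) k

/-- The map `R → k[t]`, `X_i ↦ t^(e+i)`. -/
noncomputable def toricMap (k : Type u) [Field k] (e m n : ℕ) : PR k e m n →ₐ[k] Polynomial k :=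
  MvPolynomial.aeval (fun i => Polynomial.X ^ (e + i.1))

/-- The ideal `I_{m,n}`; `R / I_{m,n}` is the semigroup ring. -/
noncomputable def toricIdeal (k : Type u) [Field k] (e m n : ℕ) : Ideal (PR k e m n) :=
  RingHom.ker (toricMap k e m n)

/-- The ideal generated by the variables. -/
noncomputable def varIdeal (k : Type u) [Field k] (e m n : ℕ) : Ideal (PR k e m n) :=
  Ideal.span (Set.range MvPolynomial.X)

/-- Mathlib's `Tor_j^A (A/I, A/J)`. -/
noncomputable def TorQ (A : Type u) [CommRing A] (I J : Ideal A) (j : ℕ) : ModuleCat.{u} A :=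
  ((Tor (ModuleCat.{u} A) j).obj (ModuleCat.of A (A ⧸ I))).obj (ModuleCat.of A (A ⧸ J))

/-- The dimension over `k` of a module over a `k`-algebra. -/
noncomputable def kDim (k : Type u) [Field k] (A : Type u) [CommRing A] [Algebra k A]
    (T : ModuleCat.{u} A) : Cardinal.{u} :=
  Module.rank k ((ModuleCat.restrictScalars (algebraMap k A)).obj T)

/-- `β_j = dim_k Tor_j^R (R/I, R/(X_i : i))` (Mathlib's `Tor`). -/
noncomputable def betti (k : Type u) [Field k] (e m n j : ℕ) : Cardinal.{u} :=
  kDim k (PR k e m n) (TorQ (PR k e m n) (toricIdeal k e m n) (varIdeal k e m n) j)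

end Pool.Agent.Q35.SB
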