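import Mathlib
import Pool.Agent.Q35.SB.Def
import Pool.Agent.Q35.SB.Count

set_option autoImplicit false

/-! The toric ideal. -/

namespace Pool.Agent.Q35.SB

open MvPolynomial

universe u

section comb

variable {e n : ℕ}

theorem mem_gens {e m n i : ℕ} : i ∈ gens e m n ↔ i < e ∧ i ≠ m ∧ i ≠ n := by
  simp [gens]

/-- weights -/
noncomputable def wt (e n : ℕ) : (gens e 2 n →₀ ℕ) →+ ℕ :=
  Finsupp.weight (fun i : gens e 2 n => e + i.1)

theorem wt_single (u : gens e 2 n) : wt e n (Finsupp.single u 1) = e + u.1 := by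
  unfold wt
  rw [Finsupp.weight_single, one_smul]

theorem peel (s : gens e 2 n →₀ ℕ) : s = 0 ∨ ∃ u s', s = Finsupp.single u 1 + s' := by
  by_cases h : s = 0
  · exact Or.inl h
  · right
    obtain ⟨u, hu⟩ := Finsupp.ne_iff.1 h
    refine ⟨u, s - Finsupp.single u 1, ?_⟩
    rw [add_comm, tsub_add_cancel_of_le]
    rw [Finsupp.single_le_iff]
    exact Nat.one_le_iff_ne_zero.2 hu

theorem classify (s : gens e 2 n →₀ ℕ) : s = 0 ∨ (∃ u, s = Finsupp.single u 1) ∨
    (∃ u w, s = Finsupp.single u 1 + Finsupp.single w 1) ∨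
    (∃ u w r t, s = Finsupp.single u 1 + (Finsupp.single w 1 + (Finsupp.single r 1 + t))) := by
  rcases peel s with h | ⟨u, s1, rfl⟩
  · exact Or.inl h
  rcases peel s1 with rfl | ⟨w, s2, rfl⟩
  · exact Or.inr (Or.inl ⟨u, by rw [add_zero]⟩)
  rcases peel s2 with rfl | ⟨r, s3, rfl⟩
  · exact Or.inr (Or.inr (Or.inl ⟨u, w, by rw [add_zero]⟩))
  exact Or.inr (Or.inr (Or.inr ⟨u, w, r, s3, rfl⟩))

/-- nonzero generators -/
def VS (e n : ℕ) : Finset (gens e 2 n) := Finset.univ.filter (fun i => i.1 ≠ 0)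

theorem mem_VS (i : gens e 2 n) : i ∈ VS e n ↔ i.1 ≠ 0 := by
  simp [VS]

variable (he : 6 ≤ e) (hn : n = 4 ∨ n = 5)

include he hn in
theorem all_wt (N : ℕ) (hN : 2 * e ≤ N) : ∃ s, wt e n s = N := by
  have h0 : 0 ∈ gens e 2 n := mem_gens.2 ⟨by omega, by omega, by omega⟩
  have h1 : 1 ∈ gens e 2 n := mem_gens.2 ⟨by omega, by omega, by omega⟩
  have h2 : n - 1 ∈ gens e 2 n := mem_gens.2 ⟨by omega, by omega, by omega⟩
  induction N using Nat.strong_induction_on with
  | _ N ih =>
    by_cases hN3 : 3 * e ≤ N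
    · obtain ⟨s, hs⟩ := ih (N - e) (by omega) (by omega)
      refine ⟨s + Finsupp.single ⟨0, h0⟩ 1, ?_⟩
      rw [map_add, wt_single, hs]
      change N - e + (e + 0) = N
      omega
    · by_cases hc : N - 2 * e ∈ gens e 2 n
      · refine ⟨Finsupp.single ⟨0, h0⟩ 1 + Finsupp.single ⟨_, hc⟩ 1, ?_⟩
        rw [map_add, wt_single, wt_single]
        change e + 0 + (e + (N - 2 * e)) = N
        omega
      · rw [mem_gens] at hc
        by_cases h22 : N - 2 * e = 2
        · refine ⟨Finsupp.single ⟨1, h1⟩ 1 + Finsupp.single ⟨1, h1⟩ 1, ?_⟩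
          rw [map_add, wt_single]
          change e + 1 + (e + 1) = N
          omega
        · refine ⟨Finsupp.single ⟨1, h1⟩ 1 + Finsupp.single ⟨n - 1, h2⟩ 1, ?_⟩
          rw [map_add, wt_single, wt_single]
          change e + 1 + (e + (n - 1)) = N
          omega

theorem lt_e (u : gens e 2 n) : u.1 < e := (mem_gens.1 u.2).1
theorem ne_2 (u : gens e 2 n) : u.1 ≠ 2 := (mem_gens.1 u.2).2.1
theorem ne_n (u : gens e 2 n) : u.1 ≠ n := (mem_gens.1 u.2).2.2

/-- the generators of the initial ideal -/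
def GT (e n : ℕ) (o x y : gens e 2 n) : Set (gens e 2 n →₀ ℕ) := GF o (VS e n) x y

variable (o x y : gens e 2 n) (ho : o.1 = 0) (hx : x.1 = 1) (hy : y.1 + 1 = n)

include he hn ho hx hy

theorem down (g : gens e 2 n →₀ ℕ) (hg : g ∈ GT e n o x y) :
    ∃ s, wt e n g = e + wt e n s := by
  have key : ∀ N, (N < e ∧ N ≠ 2 ∧ N ≠ n) ∨ e ≤ N → ∃ s, wt e n s = e + N := by
    intro N hN
    rcases hN with hN | hN
    · exact ⟨Finsupp.single ⟨N, mem_gens.2 hN⟩ 1, wt_single _⟩
    · exact all_wt he hn _ (by omega)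
  rcases hg with rfl | rfl | rfl | rfl | ⟨w, hw, v, hv, rfl⟩
  · obtain ⟨s, hs⟩ := key (e + 3) (Or.inr (by omega))
    refine ⟨s, ?_⟩
    rw [hs, map_add, map_add, wt_single, hx]
    omega
  · obtain ⟨s, hs⟩ := key (e + n + 1) (Or.inr (by omega))
    refine ⟨s, ?_⟩
    rw [hs, map_add, map_add, wt_single, wt_single, hx]
    omega
  · obtain ⟨s, hs⟩ := key (y.1 + y.1) (by omega)
    refine ⟨s, ?_⟩
    rw [hs, map_add, wt_single]
    omega
  · refine ⟨0, ?_⟩
    rw [wt_single, map_zero, ho]
  · simp only [Finset.mem_erase, mem_VS] at hw hv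
    obtain ⟨hwy, hwx, hw0⟩ := hw
    have a1 : w.1 ≠ y.1 := fun h => hwy (Subtype.ext h)
    have a2 : w.1 ≠ x.1 := fun h => hwx (Subtype.ext h)
    have a3 := ne_2 w
    have a4 := ne_n w
    have a5 := ne_2 v
    have a6 := ne_n v
    obtain ⟨s, hs⟩ := key (w.1 + v.1) (by omega)
    refine ⟨s, ?_⟩
    rw [hs, map_add, wt_single, wt_single]
    omega

/-- standard monomials -/
theorem standard (s : gens e 2 n →₀ ℕ) (hs : ∀ g ∈ GT e n o x y, ¬ g ≤ s) :
    s = 0 ∨ (∃ u : gens e 2 n, u.1 ≠ 0 ∧ s = Finsupp.single u 1) ∨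
      s = Finsupp.single x 1 + Finsupp.single x 1 ∨
      s = Finsupp.single x 1 + Finsupp.single y 1 := by
  have g0 := hs (Finsupp.single o 1) (Or.inr (Or.inr (Or.inr (Or.inl rfl))))
  have gw : ∀ w v : gens e 2 n, w ≠ x → w ≠ y → w.1 ≠ 0 → v.1 ≠ 0 →
      ¬ (Finsupp.single w 1 + Finsupp.single v 1 ≤ s) := by
    intro w v h1 h2 h3 h4
    exact hs _ (Or.inr (Or.inr (Or.inr (Or.inr ⟨w, by
      simp only [Finset.mem_erase, mem_VS]
      exact ⟨h2, h1, h3⟩, v, (mem_VS v).2 h4, rfl⟩))))
  have gyy := hs _ (Or.inr (Or.inr (Or.inl rfl)))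
  have gxy := hs _ (Or.inr (Or.inl rfl))
  have gxx := hs _ (Or.inl rfl)
  have hxy : x ≠ y := fun h => by
    rw [← h] at hy
    omega
  rcases classify s with rfl | ⟨u, rfl⟩ | ⟨u, w, rfl⟩ | ⟨u, w, r, t, rfl⟩
  · exact Or.inl rfl
  · refine Or.inr (Or.inl ⟨u, fun h => g0 ?_, rfl⟩)
    have : u = o := Subtype.ext (h.trans ho.symm)
    rw [this]
  · have hu0 : u.1 ≠ 0 := fun h => by
      have : u = o := Subtype.ext (h.trans ho.symm)
      exact g0 (this ▸ le_self_add)
    have hw0 : w.1 ≠ 0 := fun h => by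
      have : w = o := Subtype.ext (h.trans ho.symm)
      exact g0 (this ▸ le_add_self)
    have hu : u = x ∨ u = y := by
      by_contra h
      push Not at h
      exact gw u w h.1 h.2 hu0 hw0 le_rfl
    have hw : w = x ∨ w = y := by
      by_contra h
      push Not at h
      exact gw w u h.1 h.2 hw0 hu0 (by rw [add_comm])
    rcases hu with rfl | rfl <;> rcases hw with rfl | rfl
    · exact Or.inr (Or.inr (Or.inl rfl))
    · exact Or.inr (Or.inr (Or.inr rfl))
    · exact Or.inr (Or.inr (Or.inr (add_comm _ _)))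
    · exact absurd le_rfl gyy
  · exfalso
    have e1 : Finsupp.single u 1 + (Finsupp.single w 1 + (Finsupp.single r 1 + t)) =
        Finsupp.single u 1 + Finsupp.single w 1 + Finsupp.single r 1 + t := by abel
    have e2 : Finsupp.single u 1 + (Finsupp.single w 1 + (Finsupp.single r 1 + t)) =
        Finsupp.single u 1 + Finsupp.single r 1 + Finsupp.single w 1 + t := by abel
    have e3 : Finsupp.single u 1 + (Finsupp.single w 1 + (Finsupp.single r 1 + t)) =
        Finsupp.single w 1 + Finsupp.single r 1 + Finsupp.single u 1 + t := by abel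
    have hle12 : Finsupp.single u 1 + Finsupp.single w 1 ≤
        Finsupp.single u 1 + (Finsupp.single w 1 + (Finsupp.single r 1 + t)) := by
      rw [e1, add_assoc]; exact le_self_add
    have hle13 : Finsupp.single u 1 + Finsupp.single r 1 ≤
        Finsupp.single u 1 + (Finsupp.single w 1 + (Finsupp.single r 1 + t)) := by
      rw [e2, add_assoc]; exact le_self_add
    have hle23 : Finsupp.single w 1 + Finsupp.single r 1 ≤
        Finsupp.single u 1 + (Finsupp.single w 1 + (Finsupp.single r 1 + t)) := by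
      rw [e3, add_assoc]; exact le_self_add
    have hle123 : Finsupp.single u 1 + Finsupp.single w 1 + Finsupp.single r 1 ≤
        Finsupp.single u 1 + (Finsupp.single w 1 + (Finsupp.single r 1 + t)) := by
      rw [e1]; exact le_self_add
    have hu0 : u.1 ≠ 0 := fun h => by
      have : u = o := Subtype.ext (h.trans ho.symm)
      exact g0 (this ▸ le_self_add.trans hle12)
    have hw0 : w.1 ≠ 0 := fun h => by
      have : w = o := Subtype.ext (h.trans ho.symm)
      exact g0 (this ▸ le_add_self.trans hle12)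
    have hr0 : r.1 ≠ 0 := fun h => by
      have : r = o := Subtype.ext (h.trans ho.symm)
      exact g0 (this ▸ le_add_self.trans hle13)
    have hu : u = x ∨ u = y := by
      by_contra h
      push Not at h
      exact gw u w h.1 h.2 hu0 hw0 hle12
    have hw : w = x ∨ w = y := by
      by_contra h
      push Not at h
      exact gw w r h.1 h.2 hw0 hr0 hle23
    have hr : r = x ∨ r = y := by
      by_contra h
      push Not at h
      exact gw r w h.1 h.2 hr0 hw0 (by rw [add_comm]; exact hle23)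
    clear g0 gw hs e1 e2 e3 hu0 hw0 hr0
    generalize Finsupp.single u 1 + (Finsupp.single w 1 + (Finsupp.single r 1 + t)) = S at *
    rcases hu with hu | hu <;> rcases hw with hw | hw <;> rcases hr with hr | hr <;>
      rw [hu, hw] at hle12 hle123 <;> rw [hr] at hle123 hle13 hle23 <;> rw [hu] at hle13 <;>
      rw [hw] at hle23
    · exact gxx hle123
    · refine gxy ?_
      rw [show Finsupp.single x 1 + Finsupp.single y 1 + Finsupp.single x 1 =
        Finsupp.single x 1 + Finsupp.single x 1 + Finsupp.single y 1 by abel]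
      exact hle123
    · exact gxy hle123
    · exact gyy hle23
    · refine gxy ?_
      rw [show Finsupp.single x 1 + Finsupp.single y 1 + Finsupp.single x 1 =
        Finsupp.single y 1 + Finsupp.single x 1 + Finsupp.single x 1 by abel]
      exact hle123
    · exact gyy hle13
    · exact gyy hle12
    · exact gyy hle12

theorem unique (s s' : gens e 2 n →₀ ℕ) (hs : ∀ g ∈ GT e n o x y, ¬ g ≤ s)
    (h : wt e n s' = wt e n s) : s' = s := by
  rcases standard he hn o x y ho hx hy s hs with rfl | ⟨u, hu, rfl⟩ | rfl | rfl <;>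
    rcases classify s' with rfl | ⟨a, rfl⟩ | ⟨a, b, rfl⟩ | ⟨a, b, c, t, rfl⟩ <;>
    simp only [map_add, map_zero, wt_single] at h
  · rfl
  · omega
  · omega
  · omega
  · omega
  · have : a = u := Subtype.ext (by omega)
    rw [this]
  · have := lt_e u
    omega
  · have := lt_e u
    omega
  · omega
  · have := lt_e a
    omega
  · have h1 := lt_e a
    have h2 := lt_e b
    have h3 := ne_2 a
    have h4 := ne_2 b
    have ea : a = x := Subtype.ext (by omega)
    have eb : b = x := Subtype.ext (by omega)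
    rw [ea, eb]
  · omega
  · omega
  · have := lt_e a
    omega
  · have h1 := ne_n a
    have h2 := ne_n b
    have h3 := ne_2 a
    have h4 := ne_2 b
    have hc : (a.1 = x.1 ∧ b.1 = y.1) ∨ (a.1 = y.1 ∧ b.1 = x.1) := by omega
    rcases hc with ⟨ea, eb⟩ | ⟨ea, eb⟩
    · rw [Subtype.ext ea, Subtype.ext eb]
    · rw [Subtype.ext ea, Subtype.ext eb, add_comm]
  · omega

end comb

end Pool.Agent.Q35.SB
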