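import Mathlib
import Pool.Agent.Q35.SB.Toric

set_option autoImplicit false
set_option linter.unusedSectionVars false

/-! The Betti numbers. -/

namespace Pool.Agent.Q35.SB

open MvPolynomial CategoryTheory

universe u

section num

/-- the Betti numbers -/
def B (M : ℕ) : ℕ → ℕ
  | 0 => 1
  | (j + 1) => (j + 1) * (M + 3).choose (j + 2)

theorem num_zero (M : ℕ) : (M + 3).choose 2 + 1 + (M + 1).choose 2 =
    1 + M * (M + 3) + 1 + 2 := by
  induction M with
  | zero => decide
  | succ M ih =>
    have h1 : (M + 1 + 3).choose 2 = (M + 3).choose 1 + (M + 3).choose 2 :=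
      Nat.choose_succ_succ _ _
    have h2 : (M + 1 + 1).choose 2 = (M + 1).choose 1 + (M + 1).choose 2 :=
      Nat.choose_succ_succ _ _
    rw [h1, h2, Nat.choose_one_right, Nat.choose_one_right]
    nlinarith [ih]

theorem choose_id (n k : ℕ) : (k + 1) * n.choose (k + 1) + k * n.choose k = n * n.choose k := by
  have h := Nat.choose_succ_right_eq n k
  by_cases hk : k ≤ n
  · obtain ⟨r, rfl⟩ := Nat.exists_eq_add_of_le hk
    rw [Nat.add_sub_cancel_left] at h
    nlinarith [h]
  · rw [Nat.choose_eq_zero_of_lt (by omega), Nat.choose_eq_zero_of_lt (by omega)]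
    simp

theorem num_succ (M j : ℕ) : (j + 2) * (M + 3).choose (j + 3) + (j + 1) * (M + 3).choose (j + 2) +
    (M + 1).choose (j + 3) =
    M * (M + 3).choose (j + 2) + (M + 1).choose (j + 1) + 2 * (M + 2).choose (j + 1) := by
  have h1 := choose_id (M + 3) (j + 2)
  have p1 : (M + 3).choose (j + 3) = (M + 2).choose (j + 2) + (M + 2).choose (j + 3) :=
    Nat.choose_succ_succ _ _
  have p2 : (M + 3).choose (j + 2) = (M + 2).choose (j + 1) + (M + 2).choose (j + 2) :=
    Nat.choose_succ_succ _ _
  have p3 : (M + 2).choose (j + 3) = (M + 1).choose (j + 2) + (M + 1).choose (j + 3) :=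
    Nat.choose_succ_succ _ _
  have p4 : (M + 2).choose (j + 2) = (M + 1).choose (j + 1) + (M + 1).choose (j + 2) :=
    Nat.choose_succ_succ _ _
  set a := (M + 3).choose (j + 3)
  set b := (M + 3).choose (j + 2)
  nlinarith [h1, p1, p2, p3, p4]

end num

variable (k : Type u) [Field k] (e n : ℕ)

theorem toric_monomial (s : gens e 2 n →₀ ℕ) (c : k) :
    toricMap k e 2 n (monomial s c) = Polynomial.monomial (wt e n s) c := by
  unfold toricMap wt
  rw [aeval_monomial, Finsupp.weight_apply, ← Polynomial.C_mul_X_pow_eq_monomial,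
    Polynomial.algebraMap_apply, Algebra.algebraMap_self, RingHom.id_apply]
  congr 1
  rw [Finsupp.prod, Finsupp.sum, ← Finset.prod_pow_eq_pow_sum]
  refine Finset.prod_congr rfl (fun i _ => ?_)
  rw [← pow_mul, smul_eq_mul, mul_comm]

section

variable (he : 6 ≤ e) (hn : n = 4 ∨ n = 5)
variable (o x y : gens e 2 n) (ho : o.1 = 0) (hx : x.1 = 1) (hy : y.1 + 1 = n)

include he hn ho hx hy

theorem ker_le : toricIdeal k e 2 n ≤ MI k (GT e n o x y) := by
  intro f hf
  rw [mem_MI]
  intro s hs
  by_contra hcon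
  push Not at hcon
  have hf0 : toricMap k e 2 n f = 0 := hf
  have h1 : (toricMap k e 2 n f).coeff (wt e n s) = coeff s f := by
    conv_lhs => rw [f.as_sum, map_sum]
    rw [Polynomial.finsetSum_coeff, Finset.sum_eq_single s]
    · rw [toric_monomial, Polynomial.coeff_monomial, if_pos rfl]
    · intro t _ hts
      rw [toric_monomial, Polynomial.coeff_monomial, if_neg]
      intro h
      exact hts (unique he hn o x y ho hx hy s t hcon h)
    · intro h
      exact absurd hs h
  rw [hf0, Polynomial.coeff_zero] at h1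
  exact (mem_support_iff.1 hs) h1.symm

theorem mem_MI_of (f : PR k e 2 n) (hf : f ∈ MI k (GT e n o x y)) :
    ∃ i ∈ toricIdeal k e 2 n, ∃ r, f = i + X o * r := by
  have h : MI k (GT e n o x y) ≤ toricIdeal k e 2 n ⊔ Ideal.span {X o} := by
    unfold MI
    rw [Ideal.span_le]
    rintro _ ⟨g, hg, rfl⟩
    obtain ⟨s, hs⟩ := down he hn o x y ho hx hy g hg
    change monomial g (1 : k) ∈ _
    have e1 : monomial g (1 : k) = (monomial g 1 - X o * monomial s 1) + X o * monomial s 1 := by
      ring
    rw [e1]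
    refine Ideal.add_mem _ (Ideal.mem_sup_left ?_) (Ideal.mem_sup_right ?_)
    · change toricMap k e 2 n _ = 0
      rw [X, monomial_mul, one_mul, map_sub, toric_monomial, toric_monomial, map_add, wt_single,
        ho, add_zero, hs, sub_self]
    · exact Ideal.mul_mem_right _ _ (Ideal.mem_span_singleton_self _)
  have hf' := h hf
  rw [Submodule.mem_sup] at hf'
  obtain ⟨i, hi, z, hz, rfl⟩ := hf'
  rw [Ideal.mem_span_singleton] at hz
  obtain ⟨r, rfl⟩ := hz
  exact ⟨i, hi, r, rfl⟩

variable (K : Type u) [AddCommGroup K] [Module (PR k e 2 n) K]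
variable (hK : ∀ (v : gens e 2 n) (b : K), (X v : PR k e 2 n) • b = 0)

include hK

theorem toric_step (j : ℕ) :
    td k K (j + 1) (GT e n o x y) =
      tdim (PR k e 2 n) k K (j + 1) (PR k e 2 n ⧸ toricIdeal k e 2 n) +
      tdim (PR k e 2 n) k K j (PR k e 2 n ⧸ toricIdeal k e 2 n) := by
  have hle := ker_le k e n he hn o x y ho hx hy
  refine tdim_add (PR k e 2 n) k K
    (LinearMap.lsmul (PR k e 2 n) (PR k e 2 n ⧸ toricIdeal k e 2 n) (X o))
    (Submodule.factor hle) ?_ ?_ ?_ (X o) (hK o) LinearMap.id (fun a => rfl) j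
  · rw [injective_iff_map_eq_zero]
    intro q hq
    obtain ⟨f, rfl⟩ := Ideal.Quotient.mk_surjective q
    have hq' : Ideal.Quotient.mk (toricIdeal k e 2 n) (X o * f) = 0 := hq
    rw [Ideal.Quotient.eq_zero_iff_mem] at hq' ⊢
    have h1 : toricMap k e 2 n (X o * f) = 0 := hq'
    change toricMap k e 2 n f = 0
    rw [map_mul] at h1
    rcases mul_eq_zero.1 h1 with h2 | h2
    · exfalso
      unfold toricMap at h2
      rw [aeval_X] at h2
      exact (pow_ne_zero _ Polynomial.X_ne_zero) h2
    · exact h2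
  · exact Submodule.factor_surjective hle
  · intro q
    obtain ⟨f, rfl⟩ := Ideal.Quotient.mk_surjective q
    constructor
    · intro hq
      have hq' : f ∈ MI k (GT e n o x y) := by
        have : Ideal.Quotient.mk (MI k (GT e n o x y)) f = 0 := hq
        rwa [Ideal.Quotient.eq_zero_iff_mem] at this
      obtain ⟨i, hi, r, hr⟩ := mem_MI_of k e n he hn o x y ho hx hy f hq'
      refine ⟨Ideal.Quotient.mk _ r, ?_⟩
      change Ideal.Quotient.mk _ (X o * r) = _
      rw [Ideal.Quotient.eq, hr]
      have : X o * r - (i + X o * r) = -i := by ring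
      rw [this]
      exact Ideal.neg_mem_iff _ |>.2 hi
    · rintro ⟨p, hp⟩
      obtain ⟨h, rfl⟩ := Ideal.Quotient.mk_surjective p
      rw [← hp]
      change Ideal.Quotient.mk (MI k (GT e n o x y)) (X o * h) = 0
      rw [Ideal.Quotient.eq_zero_iff_mem]
      apply Ideal.mul_mem_right
      have hm : monomial (Finsupp.single o 1) (1 : k) ∈ MI k (GT e n o x y) :=
        Ideal.subset_span ⟨_, Or.inr (Or.inr (Or.inr (Or.inl rfl))), rfl⟩
      exact hm

end

theorem varIdeal_smul (v : gens e 2 n) (b : PR k e 2 n ⧸ varIdeal k e 2 n) :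
    (X v : PR k e 2 n) • b = 0 := by
  obtain ⟨f, rfl⟩ := Ideal.Quotient.mk_surjective b
  change Ideal.Quotient.mk _ (X v * f) = 0
  rw [Ideal.Quotient.eq_zero_iff_mem]
  exact Ideal.mul_mem_right _ _ (Ideal.subset_span ⟨v, rfl⟩)

theorem mem_varIdeal (f : PR k e 2 n) : f ∈ varIdeal k e 2 n ↔
    ∀ m ∈ f.support, ∃ i, m i ≠ 0 := by
  unfold varIdeal
  rw [← Set.image_univ, mem_ideal_span_X_image]
  simp

theorem rank_K : dk k (ModuleCat.of (PR k e 2 n) (PR k e 2 n ⧸ varIdeal k e 2 n)) = 1 := by
  unfold dk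
  let v : (ModuleCat.restrictScalars (algebraMap k (PR k e 2 n))).obj
    (ModuleCat.of (PR k e 2 n) (PR k e 2 n ⧸ varIdeal k e 2 n)) :=
    (Ideal.Quotient.mk (varIdeal k e 2 n) 1 : PR k e 2 n ⧸ varIdeal k e 2 n)
  refine rank_eq_one v ?_ ?_
  · intro h
    have h' : Ideal.Quotient.mk (varIdeal k e 2 n) 1 = 0 := h
    rw [Ideal.Quotient.eq_zero_iff_mem, mem_varIdeal] at h'
    obtain ⟨i, hi⟩ := h' 0 (by simp)
    simp at hi
  · intro w
    obtain ⟨f, hf⟩ := Ideal.Quotient.mk_surjective
      (w : PR k e 2 n ⧸ varIdeal k e 2 n)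
    refine ⟨constantCoeff f, ?_⟩
    have h1 : Ideal.Quotient.mk (varIdeal k e 2 n) (C (constantCoeff f) * 1) =
        Ideal.Quotient.mk (varIdeal k e 2 n) f := by
      rw [mul_one, Ideal.Quotient.eq, mem_varIdeal]
      intro m hm
      by_contra hcon
      push Not at hcon
      have hm0 : m = 0 := Finsupp.ext hcon
      subst hm0
      rw [mem_support_iff] at hm
      apply hm
      simp [constantCoeff_eq]
    exact h1.trans hf

theorem betti_eq (he : 6 ≤ e) (hn : n = 4 ∨ n = 5) (j : ℕ) :
    betti k e 2 n j = (B (e - 5) j : ℕ) := by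
  have h0 : 0 ∈ gens e 2 n := mem_gens.2 ⟨by omega, by omega, by omega⟩
  have h1 : 1 ∈ gens e 2 n := mem_gens.2 ⟨by omega, by omega, by omega⟩
  have h2 : n - 1 ∈ gens e 2 n := mem_gens.2 ⟨by omega, by omega, by omega⟩
  set o : gens e 2 n := ⟨0, h0⟩ with hodef
  set x : gens e 2 n := ⟨1, h1⟩ with hxdef
  set y : gens e 2 n := ⟨n - 1, h2⟩ with hydef
  have ho : o.1 = 0 := rfl
  have hx : x.1 = 1 := rfl
  have hy : y.1 + 1 = n := by
    change n - 1 + 1 = n
    omega
  have hK := varIdeal_smul k e n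
  have hK1 := rank_K k e n
  have hb : ∀ j, betti k e 2 n j = tdim (PR k e 2 n) k (PR k e 2 n ⧸ varIdeal k e 2 n) j
    (PR k e 2 n ⧸ toricIdeal k e 2 n) := fun _ => rfl
  have hcard : (VS e n).card = (e - 5) + 2 := by
    have e1 : (VS e n).card = ((gens e 2 n).filter (fun i => i ≠ 0)).card := by
      rw [← Finset.card_map (Function.Embedding.subtype _)]
      congr 1
      ext i
      simp [VS]
      tauto
    have e2 : (gens e 2 n).filter (fun i => i ≠ 0) = (Finset.range e) \ {0, 2, n} := by
      ext i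
      simp [gens]
      tauto
    rw [e1, e2, Finset.card_sdiff_of_subset (by
      intro i
      simp only [Finset.mem_insert, Finset.mem_singleton, Finset.mem_range]
      omega), Finset.card_range]
    have e3 : ({0, 2, n} : Finset ℕ).card = 3 := by
      rcases hn with rfl | rfl <;> rfl
    rw [e3]
    omega
  have hxV : x ∈ VS e n := (mem_VS x).2 (by rw [hx]; omega)
  have hyV : y ∈ VS e n := (mem_VS y).2 (by omega)
  have hoV : o ∉ VS e n := fun h => (mem_VS o).1 h ho
  have hxy : x ≠ y := fun h => by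
    rw [← h] at hy
    omega
  have h00 : (0 : gens e 2 n →₀ ℕ) ∉ GT e n o x y := by
    rintro (h | h | h | h | ⟨w, hw, v, hv, h⟩)
    · simpa using congrArg (fun f => f x) h
    · simpa using congrArg (fun f => f x) h
    · simpa using congrArg (fun f => f y) h
    · simpa using congrArg (fun f => f o) h
    · have := congrArg (fun f => f w) h
      simp only [Finsupp.coe_zero, Pi.zero_apply, Finsupp.coe_add, Pi.add_apply,
        Finsupp.single_eq_same] at this
      omega
  induction j with
  | zero =>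
    rw [hb, tdim_zero_quot _ k _ _ ?_, hK1]
    · simp [B]
    · intro a ha b
      exact ann_MI k _ hK hK1 _ h00 a (ker_le k e n he hn o x y ho hx hy ha) b
  | succ j ih =>
    have s1 := toric_step k e n he hn o x y ho hx hy _ hK j
    have s2 := final k _ hK hK1 o (VS e n) hoV x y hxV hyV hxy (e - 5) hcard j
    rw [← hb, ← hb, ih] at s1
    have s3 : td k (PR k e 2 n ⧸ varIdeal k e 2 n) (j + 1) (GF o (VS e n) x y) =
      td k (PR k e 2 n ⧸ varIdeal k e 2 n) (j + 1) (GT e n o x y) := rfl
    rw [s3, s1] at s2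
    have s4 : betti k e 2 n (j + 1) + ((B (e - 5) j + (e - 5 + 1).choose (j + 2) : ℕ) :
        Cardinal.{u}) = ((B (e - 5) (j + 1) : ℕ) : Cardinal.{u}) +
        ((B (e - 5) j + (e - 5 + 1).choose (j + 2) : ℕ) : Cardinal.{u}) := by
      rw [Nat.cast_add, ← add_assoc, s2, ← Nat.cast_add, ← Nat.cast_add]
      congr 1
      rcases j with _ | j
      · have := num_zero (e - 5)
        simp only [B]
        rw [Nat.zero_add, Nat.zero_add, Nat.choose_one_right (n := e - 5 + 3)]
        simp only [Nat.choose_zero_right, Nat.choose_self] at this ⊢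
        omega
      · have := num_succ (e - 5) j
        have h5 : Nat.choose 1 (j + 1 + 1) = 0 := Nat.choose_eq_zero_of_lt (by omega)
        simp only [B]
        rw [h5]
        have e4 : e - 5 + 3 = e - 5 + 3 := rfl
        have e5 : j + 1 + 1 = j + 2 := rfl
        have e6 : j + 1 + 2 = j + 3 := rfl
        rw [e5, e6]
        omega
    exact Cardinal.eq_of_add_eq_add_right s4 (Cardinal.natCast_lt_aleph0)

end Pool.Agent.Q35.SB
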